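import Mathlib
import Pool.Agent.Helper835.PX.Def
import Pool.Agent.Helper835.PX.Main

/-!
# A product of a set of fewer than `𝔭` real numbers with a set of Hausdorff dimension zero

There is a forcing notion with the countable chain condition such that in the extension there are
sets of real numbers `X` and `Y` such that `|X| < 𝔭`, the Hausdorff dimension of `Y` is zero and the
Hausdorff dimension of `X × Y` is positive. Nothing is assumed about the ground model.
-/

set_option autoImplicit false

namespace Pool.Agent.Results.MP_feb643_gt.ForcedFailure

open Pool.Agent.Helper835.PXD

/-- Some forcing notion with the countable chain condition forces the negated form of Q1. -/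
theorem result : ∃ (P : Type) (_ : Preorder P), Nonempty P ∧ CCC P ∧ ∀ p : P, p ∈ NegQ1 P :=
  ⟨Pool.Agent.Helper835.PX.Cnd, inferInstance, ⟨0⟩, Pool.Agent.Helper835.PX.ccc,
    Pool.Agent.Helper835.PX.forced⟩

end Pool.Agent.Results.MP_feb643_gt.ForcedFailure
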